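import Pool.Agent.H753R3.RP.Main

set_option autoImplicit false

open Topology

namespace Pool.Agent.Results.MP_76381c_al.SmallCharacter

/-- A countably infinite abelian topological group which is precompact (or merely has no finite
neighbourhood of the identity) and has a local base at the identity which is countable or of size
smaller than the pseudo-intersection number is not reflexive. -/
theorem result (G : Type) [CommGroup G] [TopologicalSpace G] [IsTopologicalGroup G] [Countable G]
    [Infinite G]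
    (hG : (∀ U ∈ 𝓝 (1 : G), ∃ F : Finset G, ∀ g : G, ∃ f ∈ F, ∃ u ∈ U, g = f * u) ∨
      ∀ U ∈ 𝓝 (1 : G), U.Infinite)
    (B : Set (Set G))
    (hcard : Cardinal.mk B ≤ Cardinal.aleph0 ∨ Cardinal.mk B < Pool.Agent.H753R3.SC.pnum)
    (hB : ∀ V ∈ B, V ∈ 𝓝 (1 : G)) (hbase : ∀ U ∈ 𝓝 (1 : G), ∃ V ∈ B, V ⊆ U) :
    ¬ ∃ e : G ≃ₜ PontryaginDual (PontryaginDual G),
      ∀ (g : G) (χ : PontryaginDual G), e g χ = χ g := by
  rintro ⟨e, he⟩
  have hinf : ∀ U ∈ 𝓝 (1 : G), U.Infinite := by
    rcases hG with h | h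
    · exact Pool.Agent.H753R3.RP.inf_of_precompact G h
    · exact h
  have hc : Cardinal.mk B < Pool.Agent.H753R3.SC.pnum := by
    rcases hcard with h | h
    · exact lt_of_le_of_lt h Pool.Agent.H753R3.SC.taskQ'
    · exact h
  obtain ⟨x, hx1, hx⟩ := Pool.Agent.H753R3.RP.rapid G hinf B hc hB hbase
  exact Pool.Agent.H753R3.RP.main x hx1 hx e he

end Pool.Agent.Results.MP_76381c_al.SmallCharacter
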